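import Mathlib

/-!
# Lower bound for the Dirichlet integral over a ball
-/

set_option autoImplicit false

namespace Pool.Agent.X134.GC

open MeasureTheory intervalIntegral

/-- Cauchy-Schwarz on an interval -/
theorem sq_integral_le {h : ℝ → ℝ} (hh : Continuous h) {r : ℝ} (hr : 0 < r) :
    (∫ s in (0 : ℝ)..r, h s) ^ 2 ≤ r * ∫ s in (0 : ℝ)..r, (h s) ^ 2 := by
  obtain ⟨m, hm⟩ : ∃ m, m = (∫ s in (0 : ℝ)..r, h s) / r := ⟨_, rfl⟩
  have h0 : 0 ≤ ∫ s in (0 : ℝ)..r, (h s - m) ^ 2 :=
    intervalIntegral.integral_nonneg hr.le fun s _ => sq_nonneg _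
  have e : ∫ s in (0 : ℝ)..r, (h s - m) ^ 2 =
      (∫ s in (0 : ℝ)..r, (h s) ^ 2) - 2 * m * (∫ s in (0 : ℝ)..r, h s) + r * m ^ 2 := by
    have e1 : ∀ s, (h s - m) ^ 2 = ((h s) ^ 2 - 2 * m * h s) + m ^ 2 := fun s => by ring
    simp only [e1]
    rw [intervalIntegral.integral_add, intervalIntegral.integral_sub,
      intervalIntegral.integral_const_mul, intervalIntegral.integral_const]
    · simp
    · exact (hh.pow 2).intervalIntegrable _ _
    · exact (hh.const_smul (2 * m)).intervalIntegrable _ _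
    · exact ((hh.pow 2).sub (hh.const_smul (2 * m))).intervalIntegrable _ _
    · exact continuous_const.intervalIntegrable _ _
  rw [e] at h0
  have h1 : (∫ s in (0 : ℝ)..r, h s) = r * m := by
    rw [hm]
    field_simp
  rw [h1] at h0 ⊢
  nlinarith

variable {E : Type} [NormedAddCommGroup E] [InnerProductSpace ℝ E] [FiniteDimensional ℝ E]
  [MeasurableSpace E] [BorelSpace E]

/-- the square of a difference along a segment -/
theorem diff_sq_le {g : E → ℝ} (hg : ContDiff ℝ 1 g) {r : ℝ} (hr : 0 < r) {e : E} (he : ‖e‖ = 1)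
    (y : E) : (g (y + r • e) - g y) ^ 2 ≤
      r * ∫ s in (0 : ℝ)..r, ‖fderiv ℝ g (y + s • e)‖ ^ 2 := by
  have hd : Differentiable ℝ g := hg.differentiable (by norm_num)
  have hc : Continuous (fderiv ℝ g) := hg.continuous_fderiv (by norm_num)
  have hl : Continuous (fun s : ℝ => y + s • e) := by fun_prop
  have hc2 : Continuous (fun s : ℝ => fderiv ℝ g (y + s • e) e) :=
    (hc.comp hl).clm_apply continuous_const
  have h1 : ∀ s : ℝ, HasDerivAt (fun s : ℝ => g (y + s • e)) (fderiv ℝ g (y + s • e) e) s := by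
    intro s
    have h2 : HasDerivAt (fun s : ℝ => y + s • e) e s := by
      have := ((hasDerivAt_id s).smul_const e).const_add y
      simpa using this
    exact (hd (y + s • e)).hasFDerivAt.comp_hasDerivAt s h2
  have h2 : ∫ s in (0 : ℝ)..r, fderiv ℝ g (y + s • e) e = g (y + r • e) - g y := by
    rw [integral_eq_sub_of_hasDerivAt (fun s _ => h1 s) (hc2.intervalIntegrable _ _)]
    simp
  rw [← h2]
  refine (sq_integral_le hc2 hr).trans (mul_le_mul_of_nonneg_left ?_ hr.le)
  refine intervalIntegral.integral_mono_on hr.le ((hc2.pow 2).intervalIntegrable _ _)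
    (((hc.comp hl).norm.pow 2).intervalIntegrable _ _) fun s _ => ?_
  have h3 := (fderiv ℝ g (y + s • e)).le_opNorm e
  rw [he, mul_one, Real.norm_eq_abs] at h3
  rw [← sq_abs]
  exact pow_le_pow_left₀ (abs_nonneg _) h3 2

/-- **Lower bound.** -/
theorem dirichlet {g : E → ℝ} (hg : ContDiff ℝ 1 g) {r ρ R M : ℝ} (hr : 0 < r)
    (hR : ρ + r ≤ R) {e : E} (he : ‖e‖ = 1)
    (hM : ∀ y ∈ Metric.closedBall (0 : E) ρ, M ≤ (g (y + r • e) - g y) ^ 2) :
    M * (volume (Metric.closedBall (0 : E) ρ)).toReal ≤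
      r ^ 2 * ∫ y in Metric.closedBall (0 : E) R, ‖fderiv ℝ g y‖ ^ 2 := by
  have hc : Continuous (fderiv ℝ g) := hg.continuous_fderiv (by norm_num)
  have hG : Continuous (fun y => ‖fderiv ℝ g y‖ ^ 2) := hc.norm.pow 2
  have hfin : volume (Metric.closedBall (0 : E) ρ) ≠ ⊤ := (isCompact_closedBall 0 ρ).measure_lt_top.ne
  have hint : IntegrableOn (fun y => ‖fderiv ℝ g y‖ ^ 2) (Metric.closedBall (0 : E) R) volume :=
    hG.continuousOn.integrableOn_compact (isCompact_closedBall 0 R)
  obtain ⟨J, hJ⟩ : ∃ J, J = ∫ y in Metric.closedBall (0 : E) R, ‖fderiv ℝ g y‖ ^ 2 := ⟨_, rfl⟩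
  have hJ0 : 0 ≤ J := by
    rw [hJ]
    exact setIntegral_nonneg measurableSet_closedBall fun y _ => by positivity
  -- the lintegral version
  have hJl : ∫⁻ y in Metric.closedBall (0 : E) R, ENNReal.ofReal (‖fderiv ℝ g y‖ ^ 2) =
      ENNReal.ofReal J := by
    rw [hJ, ofReal_integral_eq_lintegral_ofReal hint]
    exact Filter.Eventually.of_forall fun y => by positivity
  have hy : ∀ y ∈ Metric.closedBall (0 : E) ρ, ENNReal.ofReal M ≤
      ∫⁻ s in Set.Ioc (0 : ℝ) r, ENNReal.ofReal (r * ‖fderiv ℝ g (y + s • e)‖ ^ 2) := by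
    intro y hy
    have h1 := (hM y hy).trans (diff_sq_le hg hr he y)
    have hl : Continuous (fun s : ℝ => y + s • e) := by fun_prop
    have hcs : Continuous (fun s : ℝ => r * ‖fderiv ℝ g (y + s • e)‖ ^ 2) :=
      ((hc.comp hl).norm.pow 2).const_smul r
    rw [← intervalIntegral.integral_const_mul, intervalIntegral.integral_of_le hr.le] at h1
    rw [← ofReal_integral_eq_lintegral_ofReal]
    · exact ENNReal.ofReal_le_ofReal h1
    · exact (hcs.intervalIntegrable 0 r).1
    · exact Filter.Eventually.of_forall fun s => by positivity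
  have hmeas : Measurable (fun p : E × ℝ => ENNReal.ofReal (r * ‖fderiv ℝ g (p.1 + p.2 • e)‖ ^ 2)) := by
    have : Continuous (fun p : E × ℝ => r * ‖fderiv ℝ g (p.1 + p.2 • e)‖ ^ 2) := by
      have hl : Continuous (fun p : E × ℝ => p.1 + p.2 • e) := by fun_prop
      exact ((hc.comp hl).norm.pow 2).const_smul r
    exact this.measurable.ennreal_ofReal
  have hmain : ENNReal.ofReal M * volume (Metric.closedBall (0 : E) ρ) ≤
      ENNReal.ofReal (r ^ 2 * J) := by
    calc ENNReal.ofReal M * volume (Metric.closedBall (0 : E) ρ)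
        = ∫⁻ _y in Metric.closedBall (0 : E) ρ, ENNReal.ofReal M := by
          rw [setLIntegral_const]
      _ ≤ ∫⁻ y in Metric.closedBall (0 : E) ρ, ∫⁻ s in Set.Ioc (0 : ℝ) r,
            ENNReal.ofReal (r * ‖fderiv ℝ g (y + s • e)‖ ^ 2) :=
          setLIntegral_mono' measurableSet_closedBall hy
      _ = ∫⁻ s in Set.Ioc (0 : ℝ) r, ∫⁻ y in Metric.closedBall (0 : E) ρ,
            ENNReal.ofReal (r * ‖fderiv ℝ g (y + s • e)‖ ^ 2) :=
          lintegral_lintegral_swap hmeas.aemeasurable
      _ ≤ ∫⁻ _s in Set.Ioc (0 : ℝ) r, ENNReal.ofReal (r * J) := by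
          refine setLIntegral_mono' measurableSet_Ioc fun s hs => ?_
          have e1 : ∫⁻ y in Metric.closedBall (0 : E) R, ENNReal.ofReal (r * ‖fderiv ℝ g y‖ ^ 2) =
              ENNReal.ofReal (r * J) := by
            simp only [ENNReal.ofReal_mul hr.le]
            rw [lintegral_const_mul' _ _ ENNReal.ofReal_ne_top, hJl]
          rw [← e1, ← lintegral_indicator measurableSet_closedBall,
            ← lintegral_indicator measurableSet_closedBall]
          rw [← lintegral_add_right_eq_self (μ := (volume : Measure E))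
            ((Metric.closedBall (0 : E) R).indicator
              fun y => ENNReal.ofReal (r * ‖fderiv ℝ g y‖ ^ 2)) (s • e)]
          refine lintegral_mono fun y => ?_
          by_cases hyb : y ∈ Metric.closedBall (0 : E) ρ
          · have hyb2 : y + s • e ∈ Metric.closedBall (0 : E) R := by
              rw [mem_closedBall_zero_iff] at hyb ⊢
              refine (norm_add_le _ _).trans ?_
              rw [norm_smul, he, mul_one, Real.norm_eq_abs, abs_of_pos hs.1]
              linarith [hs.2]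
            rw [Set.indicator_of_mem hyb, Set.indicator_of_mem hyb2]
          · rw [Set.indicator_of_notMem hyb]
            exact zero_le
      _ = ENNReal.ofReal (r ^ 2 * J) := by
          rw [setLIntegral_const, Real.volume_Ioc, sub_zero, ← ENNReal.ofReal_mul (by positivity)]
          congr 1
          ring
  rcases le_or_gt M 0 with h | h
  · calc M * (volume (Metric.closedBall (0 : E) ρ)).toReal ≤ 0 :=
          mul_nonpos_of_nonpos_of_nonneg h ENNReal.toReal_nonneg
      _ ≤ r ^ 2 * ∫ y in Metric.closedBall (0 : E) R, ‖fderiv ℝ g y‖ ^ 2 := by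
          rw [← hJ]
          positivity
  · have h1 := ENNReal.toReal_mono ENNReal.ofReal_ne_top hmain
    rw [ENNReal.toReal_mul, ENNReal.toReal_ofReal h.le, ENNReal.toReal_ofReal (by positivity)] at h1
    rw [← hJ]
    exact h1

end Pool.Agent.X134.GC
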