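import Mathlib

/-!
# One-dimensional translated theta functions and products
-/

set_option autoImplicit false

namespace Pool.Agent.X134.GC

open Filter Topology

/-- the translated theta series of `a ℤ` -/
noncomputable def th (a α y : ℝ) : ℝ := ∑' n : ℤ, Real.exp (-(Real.pi * α * (n * a + y) ^ 2))

/-- the entire function -/
noncomputable def G (a α : ℝ) (z : ℂ) : ℂ :=
  Complex.exp (-(Real.pi * α * z ^ 2)) *
    jacobiTheta₂ (Complex.I * α * a * z) (Complex.I * α * a ^ 2)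

theorem im_pos {a α : ℝ} (ha : a ≠ 0) (hα : 0 < α) : 0 < (Complex.I * α * (a : ℂ) ^ 2).im := by
  have e : (Complex.I * α * (a : ℂ) ^ 2) = ((α * a ^ 2 : ℝ) : ℂ) * Complex.I := by
    push_cast
    ring
  rw [e, Complex.mul_I_im, Complex.ofReal_re]
  positivity

theorem hasSum_G {a α : ℝ} (ha : a ≠ 0) (hα : 0 < α) (y : ℝ) :
    HasSum (fun n : ℤ => Real.exp (-(Real.pi * α * (n * a + y) ^ 2))) (G a α y).re := by
  have h1 := hasSum_jacobiTheta₂_term (Complex.I * α * a * y) (im_pos ha hα)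
  have h2 := h1.mul_left (Complex.exp (-(Real.pi * α * (y : ℂ) ^ 2)))
  have h3 := Complex.reCLM.hasSum h2
  have e : ∀ n : ℤ, Complex.exp (-(Real.pi * α * (y : ℂ) ^ 2)) *
      jacobiTheta₂_term n (Complex.I * α * a * y) (Complex.I * α * a ^ 2) =
      ((Real.exp (-(Real.pi * α * (n * a + y) ^ 2)) : ℝ) : ℂ) := by
    intro n
    unfold jacobiTheta₂_term
    rw [← Complex.exp_add, Complex.ofReal_exp]
    congr 1
    push_cast
    ring_nf
    rw [Complex.I_sq]
    ring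
  have h4 : (fun n : ℤ => Real.exp (-(Real.pi * α * (n * a + y) ^ 2))) =
      fun n : ℤ => Complex.reCLM (Complex.exp (-(Real.pi * α * (y : ℂ) ^ 2)) *
        jacobiTheta₂_term n (Complex.I * α * a * y) (Complex.I * α * a ^ 2)) := by
    funext n
    rw [e]
    rfl
  rw [h4]
  exact h3

theorem hasSum_th {a α : ℝ} (ha : a ≠ 0) (hα : 0 < α) (y : ℝ) :
    HasSum (fun n : ℤ => Real.exp (-(Real.pi * α * (n * a + y) ^ 2))) (th a α y) :=
  (hasSum_G ha hα y).summable.hasSum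

theorem th_eq {a α : ℝ} (ha : a ≠ 0) (hα : 0 < α) (y : ℝ) : th a α y = (G a α y).re :=
  (hasSum_G ha hα y).tsum_eq

theorem contDiff_th {a α : ℝ} (ha : a ≠ 0) (hα : 0 < α) : ContDiff ℝ 1 (th a α) := by
  have hG : Differentiable ℂ (G a α) := by
    intro z
    unfold G
    refine DifferentiableAt.mul (by fun_prop) ?_
    exact (differentiableAt_jacobiTheta₂_fst (Complex.I * α * a * z) (im_pos ha hα)).comp z
      (f := fun z : ℂ => Complex.I * α * a * z) (by fun_prop)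
  have h1 : ContDiff ℝ 1 (G a α) := (hG.contDiff (n := 1)).restrict_scalars ℝ
  have h2 : th a α = fun y : ℝ => Complex.reCLM (G a α (Complex.ofRealCLM y)) := by
    funext y
    exact th_eq ha hα y
  rw [h2]
  exact Complex.reCLM.contDiff.comp (h1.comp Complex.ofRealCLM.contDiff)

theorem th_ge {a α : ℝ} (ha : a ≠ 0) (hα : 0 < α) (y : ℝ) : Real.exp (-(Real.pi * α * y ^ 2)) ≤ th a α y := by
  have h1 := le_hasSum (hasSum_th ha hα y) 0 fun n _ => (Real.exp_pos _).le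
  simpa using h1

theorem th_pos {a α : ℝ} (ha : a ≠ 0) (hα : 0 < α) (y : ℝ) : 0 < th a α y :=
  lt_of_lt_of_le (Real.exp_pos _) (th_ge ha hα y)

/-- many terms -/
theorem th_small {α : ℝ} (hα : 0 < α) {N : ℕ} (hN : 0 < N) {ρ y : ℝ} (hy : |y| ≤ ρ) :
    (N : ℝ) * Real.exp (-(Real.pi * α * (1 + ρ) ^ 2)) ≤ th (1 / N) α y := by
  have hN0 : (0 : ℝ) < N := by exact_mod_cast hN
  have h1 := sum_le_hasSum (Finset.Ico (0 : ℤ) N) (fun n _ => (Real.exp_pos _).le)
    (hasSum_th (a := 1 / N) (by positivity) hα y)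
  refine le_trans ?_ h1
  have h2 : ∀ n ∈ Finset.Ico (0 : ℤ) N, Real.exp (-(Real.pi * α * (1 + ρ) ^ 2)) ≤
      Real.exp (-(Real.pi * α * ((n : ℝ) * (1 / N) + y) ^ 2)) := by
    intro n hn
    rw [Finset.mem_Ico] at hn
    apply Real.exp_le_exp.2
    have h3 : (0 : ℝ) ≤ n := by exact_mod_cast hn.1
    have h4 : (n : ℝ) ≤ N := by exact_mod_cast hn.2.le
    have h5 : (n : ℝ) * (1 / N) ≤ 1 := by
      rw [mul_one_div, div_le_one hN0]
      exact h4
    have h6 : 0 ≤ (n : ℝ) * (1 / N) := by positivity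
    have h7 : ((n : ℝ) * (1 / N) + y) ^ 2 ≤ (1 + ρ) ^ 2 := by
      apply sq_le_sq'
      · linarith [(abs_le.1 hy).1]
      · linarith [(abs_le.1 hy).2]
    have h8 : Real.pi * α * ((n : ℝ) * (1 / N) + y) ^ 2 ≤ Real.pi * α * (1 + ρ) ^ 2 :=
      mul_le_mul_of_nonneg_left h7 (by positivity)
    linarith
  have h3 := Finset.sum_le_sum h2
  rw [Finset.sum_const, Int.card_Ico, sub_zero, Int.toNat_natCast, nsmul_eq_mul] at h3
  exact h3

/-- few terms -/
theorem th_large {α : ℝ} (hα : 0 < α) {σ τ η : ℝ} (hσ : 0 < σ) (hη : 0 < η) :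
    ∃ N₀ : ℕ, ∀ N : ℕ, N₀ ≤ N → ∀ s : ℝ, σ ≤ s → s ≤ τ →
      th N α s ≤ Real.exp (-(Real.pi * α * σ ^ 2)) + η := by
  have hπα : 0 < Real.pi * α := by positivity
  obtain ⟨U, hU⟩ : ∃ U : ℕ → ℤ → ℝ, U = fun (N : ℕ) (n : ℤ) => Real.exp (-(Real.pi * α *
    (if n = 0 then σ ^ 2 else (n : ℝ) ^ 2 * ((N : ℝ) - τ) ^ 2))) := ⟨_, rfl⟩
  have hbound : Summable (fun n : ℤ => Real.exp (-(Real.pi * α * ((n : ℝ) * 1 + 0) ^ 2))) :=
    (hasSum_th (a := 1) one_ne_zero hα 0).summable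
  have hUb : ∀ N : ℕ, τ + 1 ≤ N → ∀ n : ℤ, U N n ≤ Real.exp (-(Real.pi * α * ((n : ℝ) * 1 + 0) ^ 2)) := by
    intro N hN n
    rw [hU]
    apply Real.exp_le_exp.2
    apply neg_le_neg
    apply mul_le_mul_of_nonneg_left _ hπα.le
    split_ifs with h
    · rw [h]
      simp only [Int.cast_zero, zero_mul, add_zero]
      nlinarith [sq_nonneg σ]
    · have h1 : (1 : ℝ) ≤ ((N : ℝ) - τ) ^ 2 := one_le_pow₀ (by linarith)
      have h2 : (0 : ℝ) ≤ (n : ℝ) ^ 2 := by positivity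
      nlinarith
  have hlim : Tendsto (fun N : ℕ => ∑' n : ℤ, U N n) atTop
      (𝓝 (∑' n : ℤ, if n = 0 then Real.exp (-(Real.pi * α * σ ^ 2)) else 0)) := by
    refine tendsto_tsum_of_dominated_convergence hbound (fun n => ?_) ?_
    · rw [hU]
      by_cases h : n = 0
      · simp only [h, if_true]
        exact tendsto_const_nhds
      · simp only [if_neg h]
        refine Real.tendsto_exp_atBot.comp ?_
        refine tendsto_neg_atTop_atBot.comp ?_
        refine Tendsto.const_mul_atTop hπα ?_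
        have h2 : (0 : ℝ) < (n : ℝ) ^ 2 := by
          have : (n : ℝ) ≠ 0 := by exact_mod_cast h
          positivity
        refine Tendsto.const_mul_atTop h2 ?_
        refine (tendsto_pow_atTop two_ne_zero).comp ?_
        exact tendsto_atTop_add_const_right _ (-τ) tendsto_natCast_atTop_atTop
    · obtain ⟨N₁, hN₁⟩ := exists_nat_ge (τ + 1)
      filter_upwards [eventually_ge_atTop N₁] with N hN n
      rw [Real.norm_of_nonneg (by rw [hU]; exact (Real.exp_pos _).le)]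
      exact hUb N (hN₁.trans (by exact_mod_cast hN)) n
  rw [tsum_ite_eq] at hlim
  have h1 : ∀ᶠ N : ℕ in atTop, ∑' n : ℤ, U N n < Real.exp (-(Real.pi * α * σ ^ 2)) + η :=
    hlim.eventually (gt_mem_nhds (by linarith))
  obtain ⟨N₁, hN₁⟩ := exists_nat_ge (τ + 1)
  obtain ⟨N₀, hN₀⟩ := eventually_atTop.1 (h1.and (eventually_ge_atTop (max N₁ 1)))
  refine ⟨N₀, fun N hN s hs1 hs2 => ?_⟩
  obtain ⟨h2, h3⟩ := hN₀ N hN
  have hNτ : τ + 1 ≤ (N : ℝ) := hN₁.trans (by exact_mod_cast le_trans (le_max_left _ _) h3)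
  have hN1 : 1 ≤ N := le_trans (le_max_right _ _) h3
  have hN0 : (N : ℝ) ≠ 0 := by
    have : (0 : ℝ) < N := by exact_mod_cast hN1
    exact this.ne'
  refine le_trans ?_ h2.le
  have hsum : Summable (fun n : ℤ => U N n) := by
    refine Summable.of_nonneg_of_le (fun n => ?_) (hUb N hNτ) hbound
    rw [hU]
    exact (Real.exp_pos _).le
  refine hasSum_le (fun n => ?_) (hasSum_th hN0 hα s) hsum.hasSum
  rw [hU]
  apply Real.exp_le_exp.2
  apply neg_le_neg
  apply mul_le_mul_of_nonneg_left _ hπα.le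
  split_ifs with h
  · rw [h]
    simp only [Int.cast_zero, zero_mul, zero_add]
    exact pow_le_pow_left₀ hσ.le hs1 2
  · have hs0 : 0 < s := lt_of_lt_of_le hσ hs1
    have hnabs : (1 : ℝ) ≤ |(n : ℝ)| := by
      have : (1 : ℤ) ≤ |n| := Int.one_le_abs h
      exact_mod_cast this
    have h4 : |(n : ℝ)| * ((N : ℝ) - τ) ≤ |(n : ℝ) * N + s| := by
      have h5 : |(n : ℝ)| * N - s ≤ |(n : ℝ) * N + s| := by
        have h6 := abs_sub_abs_le_abs_sub ((n : ℝ) * N) (-s)
        rw [abs_neg, abs_of_pos hs0, sub_neg_eq_add, abs_mul, Nat.abs_cast] at h6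
        exact h6
      nlinarith
    have h7 : 0 ≤ |(n : ℝ)| * ((N : ℝ) - τ) := mul_nonneg (abs_nonneg _) (by linarith)
    calc (n : ℝ) ^ 2 * ((N : ℝ) - τ) ^ 2 = (|(n : ℝ)| * ((N : ℝ) - τ)) ^ 2 := by
          rw [mul_pow, sq_abs]
      _ ≤ |(n : ℝ) * N + s| ^ 2 := pow_le_pow_left₀ h7 h4 2
      _ = _ := sq_abs _

/-- sums over `ℤ ^ (d + 1)` -/
def consE (d : ℕ) : ℤ × (Fin d → ℤ) ≃ (Fin (d + 1) → ℤ) where
  toFun p := Fin.cons (α := fun _ => ℤ) p.1 p.2
  invFun f := (f 0, fun j => f j.succ)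
  left_inv p := by
    ext
    · rfl
    · rfl
  right_inv f := by
    funext j
    refine Fin.cases ?_ (fun i => ?_) j
    · rfl
    · rfl

theorem hasSum_prod (d : ℕ) : ∀ (f : Fin d → ℤ → ℝ) (s : Fin d → ℝ), (∀ j, HasSum (f j) (s j)) →
    (∀ j n, 0 ≤ f j n) →
    HasSum (fun k : Fin d → ℤ => ∏ j, f j (k j)) (∏ j, s j) := by
  induction d with
  | zero =>
    intro f s _ _
    simp
  | succ d ih =>
    intro f s hs hn
    have i2 := ih (fun j => f j.succ) (fun j => s j.succ) (fun j => hs j.succ)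
      (fun j => hn j.succ)
    have he : ∀ p : ℤ × (Fin d → ℤ), ∏ j, f j (consE d p j) =
        f 0 p.1 * ∏ j : Fin d, f j.succ (p.2 j) := by
      intro p
      rw [Fin.prod_univ_succ]
      rfl
    have h1 : Summable fun p : ℤ × (Fin d → ℤ) => f 0 p.1 * ∏ j : Fin d, f j.succ (p.2 j) :=
      Summable.mul_of_nonneg (f := fun m => f 0 m)
        (g := fun k : Fin d → ℤ => ∏ j : Fin d, f j.succ (k j)) (hs 0).summable i2.summable
        (fun n => hn 0 n) (fun k => Finset.prod_nonneg fun j _ => hn _ _)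
    have h2 : HasSum (fun p : ℤ × (Fin d → ℤ) => f 0 p.1 * ∏ j : Fin d, f j.succ (p.2 j))
        (s 0 * ∏ j : Fin d, s j.succ) :=
      HasSum.mul (f := fun m => f 0 m)
        (g := fun k : Fin d → ℤ => ∏ j : Fin d, f j.succ (k j)) (hs 0) i2 h1
    rw [← (consE d).hasSum_iff, Fin.prod_univ_succ]
    have h3 : ((fun k : Fin (d + 1) → ℤ => ∏ j, f j (k j)) ∘ (consE d)) =
        fun p : ℤ × (Fin d → ℤ) => f 0 p.1 * ∏ j : Fin d, f j.succ (p.2 j) := by
      funext p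
      rw [Function.comp_apply, he p]
    rw [h3]
    exact h2

end Pool.Agent.X134.GC
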